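import Pool.Agent.Results.MP_4a9ea6_nt.TwoPartTwistsX15
import Pool.Agent.Results.MP_696deb_nt.JointProportionX15

/-!
# The 2-part of the Birch and Swinnerton-Dyer formula simultaneously for several quadratic twists of the
# non-CM curve `X_0(15)`: asymptotic independence

`E_D` is the quadratic twist by `D` of `X_0(15)`, where `D` runs over ALL the squarefree numbers `≡ 1` or
`49` modulo `60` (a set of density `5 / (16 π²)`, closed under the multiplication of twists). Let
`M_1, …, M_n` be different numbers of this class. For random `D` of the class the events that the 2-part of the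
formula holds for `E_{M_i D}`, with `L(1) ≠ 0`, finite Mordell-Weil group and trivial 2-primary part of
`Ш`, are asymptotically independent, each of the probability `c = ∏_{i ≥ 1} (1 - 2^{-i}) = 0.2887…`.

The proof combines the exact criterion of `MP_4a9ea6_nt.TwoPartTwistsX15` (project X15 of helper757) with the
joint law of `MP_696deb_nt.JointProportionX15` (project XJ of helper735); both are joint work of many
helpers.
-/

set_option autoImplicit false

namespace Pool.Agent.Results.MP_9c97e9_nt.JointTwoPartX15

open Pool.Agent.Results.MP_4a9ea6_nt.TwoPartTwistsX15 (twist TwoPart criterion)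
open Pool.Agent.Results.MP_696deb_nt.JointProportionX15 (Cls tw count c RankZeroShaTwo crit_iff change
  tw_cls tw_mul tw_one count_tendsto joint dens)

/-- the criterion for all the curves of the class but `X_0(15)` itself -/
theorem two_iff {D : ℕ} (h : Cls D) (h1 : D ≠ 1) : TwoPart (twist D) ↔ RankZeroShaTwo D := by
  have h0 : 1 < D := by
    have := h.1.ne_zero
    omega
  have h2 := criterion Pool.Agent.H757_X15.EE.t_FULL (D := D) ⟨h0, h.1, h.2⟩
  rw [← h2.2.2.2, crit_iff h h1]
  exact Iff.rfl

/-- the joint law -/
theorem law (T V : Finset ℕ) (hT : ∀ M ∈ T, Cls M) (hV : V ⊆ T) :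
    Filter.Tendsto (fun X : ℕ =>
      (count (fun D => ∀ M ∈ T, (TwoPart (twist (tw M D)) ↔ M ∈ V)) X : ℝ) /
        (count (fun _ => True) X : ℝ))
      Filter.atTop (nhds (c ^ V.card * (1 - c) ^ (T \ V).card)) := by
  have h3 : Filter.Tendsto (fun X : ℕ => (T.card : ℝ) / (count (fun _ => True) X : ℝ))
      Filter.atTop (nhds 0) := count_tendsto.const_div_atTop _
  have h4 : Filter.Tendsto (fun X : ℕ =>
      (count (fun D => ∀ M ∈ T, (TwoPart (twist (tw M D)) ↔ M ∈ V)) X : ℝ) /
        (count (fun _ => True) X : ℝ) -
      (count (fun D => ∀ M ∈ T, (RankZeroShaTwo (tw M D) ↔ M ∈ V)) X : ℝ) /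
        (count (fun _ => True) X : ℝ)) Filter.atTop (nhds 0) := by
    refine squeeze_zero_norm (fun X => ?_) h3
    rw [Real.norm_eq_abs, ← sub_div, abs_div, Nat.abs_cast]
    refine div_le_div_of_nonneg_right ?_ (Nat.cast_nonneg _)
    refine change T (fun D hD hDT => forall_congr' fun M => forall_congr' fun hM => ?_) X
    have h5 : tw M D ≠ 1 := fun h => hDT ((tw_one (hT M hM).1 hD.1 h).symm ▸ hM)
    rw [two_iff (tw_cls (hT M hM) hD) h5]
  have h5 := h4.add (joint T V hT hV)
  rw [zero_add] at h5
  refine h5.congr fun X => ?_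
  ring

/-- **Main theorem.** The class is closed under the multiplication of twists. For every finite set `T` of
numbers of the class and every subset `V` of `T` the proportion of the `D` in the class such that, for
`M ∈ T`, the 2-part of the formula of Birch and Swinnerton-Dyer holds for `E_{MD}` in the form
`TwoPart` if and only if `M ∈ V`, is exactly `c ^ |V| (1 - c) ^ |T \ V|`. The class has the
density `5 / (16 π²)`, and `0.2887 < c < 0.2888`. -/
theorem result :
    (∀ M D : ℕ, Cls M → Cls D → Cls (tw M D) ∧ M * D = tw M D * Nat.gcd M D ^ 2) ∧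
    (∀ T V : Finset ℕ, (∀ M ∈ T, Cls M) → V ⊆ T →
      Filter.Tendsto (fun X : ℕ =>
        (count (fun D => ∀ M ∈ T, (TwoPart (twist (tw M D)) ↔ M ∈ V)) X : ℝ) /
          (count (fun _ => True) X : ℝ))
        Filter.atTop (nhds (c ^ V.card * (1 - c) ^ (T \ V).card))) ∧
    Filter.Tendsto (fun X : ℕ => (count (fun _ => True) X : ℝ) / X) Filter.atTop
      (nhds (5 / (16 * Real.pi ^ 2))) ∧
    0.2887 < c ∧ c < 0.2888 :=
  ⟨fun _ _ hM hD => ⟨tw_cls hM hD, tw_mul⟩, law, dens, Pool.Agent.H757_X15.DD.t_LA1.2.2.2⟩

end Pool.Agent.Results.MP_9c97e9_nt.JointTwoPartX15
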